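import Pool.Agent.Helper72.MK.GoalsT

/-! Packet MK-IMP: a monotone implicit function lemma. -/

namespace Pool.Agent.Helper56.MK

open Set Filter Topology Pool.Agent.Helper72.MK

theorem imp : IMPStmt := by
  intro X _ s G c τ hτ hG hcont x₀ hx₀
  refine tendsto_order.2 ⟨?_, ?_⟩
  · intro a ha
    have h0 := (hτ x₀ hx₀).1
    have hlt : max a 0 < τ x₀ := max_lt ha h0
    obtain ⟨t, ht1, ht2⟩ := exists_between hlt
    have ht0 : 0 < t := lt_of_le_of_lt (le_max_right _ _) ht1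
    have hat : a < t := lt_of_le_of_lt (le_max_left _ _) ht1
    have h1 : c < G x₀ t := by
      have := hG x₀ hx₀ (mem_Ioi.2 ht0) (mem_Ioi.2 h0) ht2
      rwa [(hτ x₀ hx₀).2] at this
    have h2 : ∀ᶠ x in 𝓝[s] x₀, c < G x t :=
      (hcont t ht0 x₀ hx₀).eventually (lt_mem_nhds h1)
    filter_upwards [h2, self_mem_nhdsWithin] with x hx hxs
    refine lt_of_lt_of_le hat ?_
    by_contra hcon
    push Not at hcon
    have h3 := hG x hxs (mem_Ioi.2 (hτ x hxs).1) (mem_Ioi.2 ht0) hcon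
    rw [(hτ x hxs).2] at h3
    exact absurd h3 (not_lt.2 hx.le)
  · intro b hb
    have h0 := (hτ x₀ hx₀).1
    have hb0 : 0 < b := h0.trans hb
    have h1 : G x₀ b < c := by
      have := hG x₀ hx₀ (mem_Ioi.2 h0) (mem_Ioi.2 hb0) hb
      rwa [(hτ x₀ hx₀).2] at this
    have h2 : ∀ᶠ x in 𝓝[s] x₀, G x b < c :=
      (hcont b hb0 x₀ hx₀).eventually (gt_mem_nhds h1)
    filter_upwards [h2, self_mem_nhdsWithin] with x hx hxs
    by_contra hcon
    push Not at hcon
    rcases hcon.eq_or_lt with h3 | h3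
    · rw [h3, (hτ x hxs).2] at hx
      exact lt_irrefl _ hx
    · have h4 := hG x hxs (mem_Ioi.2 hb0) (mem_Ioi.2 (hτ x hxs).1) h3
      rw [(hτ x hxs).2] at h4
      exact absurd h4 (not_lt.2 hx.le)

end Pool.Agent.Helper56.MK
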